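import Mathlib
import Pool.Agent.Y234.GS.StmB

/-!
# Project GS: the functional form of strong regularity
-/

set_option autoImplicit false

namespace Pool.Agent.Y811.GS

open Pool.Agent.Y234.GS

section closure

variable {ι L O : Type} [CommRing O] [Field L] [Algebra O L]

lemma prod_mem_pow (W : Submodule O L) (f : ι → L) (hf : ∀ i, f i ∈ W) (S : Finset ι) :
    ∏ i ∈ S, f i ∈ W ^ S.card := by
  classical
  induction S using Finset.induction_on with
  | empty => simpa using ⟨1, map_one _⟩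
  | insert a s ha ih =>
    rw [Finset.prod_insert ha, Finset.card_insert_of_notMem ha, pow_succ']
    exact Submodule.mul_mem_mul (hf a) ih

lemma sec_raise {W : Submodule O L} {f : ι → L} (hf : ∀ i, f i ∈ W) {S : Finset ι} {a : L}
    {N e : ℕ} (h : (∏ i ∈ S, f i) ^ N * a ∈ W ^ e) (k : ℕ) :
    (∏ i ∈ S, f i) ^ (N + k) * a ∈ W ^ (e + k * S.card) := by
  have h1 : (∏ i ∈ S, f i) ^ k ∈ W ^ (k * S.card) := by
    rw [mul_comm, pow_mul]
    exact Submodule.pow_mem_pow _ (prod_mem_pow W f hf S) k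
  have h2 := Submodule.mul_mem_mul h1 h
  rw [← pow_add, add_comm (k * S.card)] at h2
  have h3 : (∏ i ∈ S, f i) ^ (N + k) * a =
      (∏ i ∈ S, f i) ^ k * ((∏ i ∈ S, f i) ^ N * a) := by ring
  rw [h3]
  exact h2

lemma sec_zero (W : Submodule O L) (f : ι → L) (m : ℤ) {S : Finset ι} (hS : 1 ≤ S.card) :
    (0 : L) ∈ Sec W f m S := by
  refine ⟨m.natAbs, (m + m.natAbs * S.card).toNat, ?_, ?_⟩
  · rw [Int.toNat_of_nonneg]
    have h1 : ((m.natAbs : ℕ) : ℤ) = |m| := Int.natCast_natAbs m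
    have h2 : (1 : ℤ) ≤ (S.card : ℤ) := by exact_mod_cast hS
    rw [h1]
    have h3 : |m| * 1 ≤ |m| * (S.card : ℤ) := mul_le_mul_of_nonneg_left h2 (abs_nonneg m)
    have h4 := neg_abs_le m
    linarith
  · rw [mul_zero]
    exact Submodule.zero_mem _

lemma sec_add {W : Submodule O L} {f : ι → L} (hf : ∀ i, f i ∈ W) {m : ℤ} {S : Finset ι}
    {a b : L} (ha : a ∈ Sec W f m S) (hb : b ∈ Sec W f m S) : a + b ∈ Sec W f m S := by
  obtain ⟨N, e, he, h⟩ := ha
  obtain ⟨N', e', he', h'⟩ := hb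
  have h1 := sec_raise hf h N'
  have h2 := sec_raise hf h' N
  have h3 : e' + N * S.card = e + N' * S.card := by
    have : ((e' + N * S.card : ℕ) : ℤ) = ((e + N' * S.card : ℕ) : ℤ) := by
      push_cast
      rw [he, he']
      ring
    exact_mod_cast this
  rw [h3, add_comm N' N] at h2
  refine ⟨N + N', e + N' * S.card, ?_, ?_⟩
  · push_cast
    rw [he]
    ring
  · rw [mul_add]
    exact Submodule.add_mem _ h1 h2

lemma sec_smul {W : Submodule O L} {f : ι → L} {m : ℤ} {S : Finset ι}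
    {a : L} (r : O) (ha : a ∈ Sec W f m S) : r • a ∈ Sec W f m S := by
  obtain ⟨N, e, he, h⟩ := ha
  refine ⟨N, e, he, ?_⟩
  rw [mul_smul_comm]
  exact Submodule.smul_mem _ r h

lemma sec_mul {W : Submodule O L} {f : ι → L} {m : ℤ} {S : Finset ι} {n : ℕ}
    {a c : L} (hc : c ∈ W ^ n) (ha : a ∈ Sec W f m S) : c * a ∈ Sec W f (n + m) S := by
  obtain ⟨N, e, he, h⟩ := ha
  refine ⟨N, n + e, ?_, ?_⟩
  · push_cast
    rw [he]
    ring
  · have h1 : (∏ i ∈ S, f i) ^ N * (c * a) = c * ((∏ i ∈ S, f i) ^ N * a) := by ring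
    rw [h1, pow_add]
    exact Submodule.mul_mem_mul hc h

lemma sec_pow {W : Submodule O L} {f : ι → L} {m : ℤ} {S : Finset ι} (q : ℕ)
    {a : L} (ha : a ∈ Sec W f m S) : a ^ q ∈ Sec W f (q * m) S := by
  obtain ⟨N, e, he, h⟩ := ha
  refine ⟨N * q, e * q, ?_, ?_⟩
  · push_cast
    rw [he]
    ring
  · rw [pow_mul, pow_mul, ← mul_pow]
    exact Submodule.pow_mem_pow _ h q

end closure

section dd

variable {ι L : Type} [LinearOrder ι] [AddCommGroup L]

lemma dd_hom (φ : L →+ L) (c : Finset ι → L) (S : Finset ι) :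
    dd (fun T => φ (c T)) S = φ (dd c S) := by
  unfold dd
  rw [map_sum]
  refine Finset.sum_congr rfl fun i _ => ?_
  rw [map_zsmul]

lemma dd_add (c c' : Finset ι → L) (S : Finset ι) : dd (c + c') S = dd c S + dd c' S := by
  unfold dd
  rw [← Finset.sum_add_distrib]
  refine Finset.sum_congr rfl fun i _ => ?_
  rw [Pi.add_apply, smul_add]

lemma dd_zero (S : Finset ι) : dd (0 : Finset ι → L) S = 0 := by
  unfold dd
  simp

end dd

section coch

variable {ι L O : Type} [LinearOrder ι] [CommRing O] [Field L] [Algebra O L]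

lemma dd_smul (r : O) (c : Finset ι → L) (S : Finset ι) : dd (r • c) S = r • dd c S :=
  dd_hom (DistribSMul.toAddMonoidHom L r) c S

lemma dd_mul (r : L) (c : Finset ι → L) (S : Finset ι) : dd (fun T => r * c T) S = r * dd c S :=
  dd_hom (AddMonoidHom.mulLeft r) c S

lemma cocyc_zero (W : Submodule O L) (f : ι → L) (m : ℤ) {j : ℕ} (hj : 1 ≤ j) :
    Cocyc W f m j 0 :=
  ⟨fun S hS => sec_zero W f m (by omega), fun S _ => dd_zero S⟩

lemma cobd_zero (W : Submodule O L) (f : ι → L) (m : ℤ) {j : ℕ} (hj : 2 ≤ j) :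
    Cobd W f m j 0 :=
  ⟨0, fun S hS => sec_zero W f m (by omega), fun S _ => by rw [dd_zero]; rfl⟩

lemma cocyc_add {W : Submodule O L} {f : ι → L} (hf : ∀ i, f i ∈ W) {m : ℤ} {j : ℕ}
    {c c' : Finset ι → L} (hc : Cocyc W f m j c) (hc' : Cocyc W f m j c') :
    Cocyc W f m j (c + c') :=
  ⟨fun S hS => sec_add hf (hc.1 S hS) (hc'.1 S hS), fun S hS => by
    rw [dd_add, hc.2 S hS, hc'.2 S hS, add_zero]⟩

lemma cobd_add {W : Submodule O L} {f : ι → L} (hf : ∀ i, f i ∈ W) {m : ℤ} {j : ℕ}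
    {c c' : Finset ι → L} (hc : Cobd W f m j c) (hc' : Cobd W f m j c') :
    Cobd W f m j (c + c') := by
  obtain ⟨b, hb, hcb⟩ := hc
  obtain ⟨b', hb', hcb'⟩ := hc'
  exact ⟨b + b', fun S hS => sec_add hf (hb S hS) (hb' S hS), fun S hS => by
    rw [dd_add, Pi.add_apply, hcb S hS, hcb' S hS]⟩

lemma cocyc_smul {W : Submodule O L} {f : ι → L} {m : ℤ} {j : ℕ}
    {c : Finset ι → L} (r : O) (hc : Cocyc W f m j c) : Cocyc W f m j (r • c) :=
  ⟨fun S hS => sec_smul r (hc.1 S hS), fun S hS => by rw [dd_smul, hc.2 S hS, smul_zero]⟩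

lemma cobd_smul {W : Submodule O L} {f : ι → L} {m : ℤ} {j : ℕ}
    {c : Finset ι → L} (r : O) (hc : Cobd W f m j c) : Cobd W f m j (r • c) := by
  obtain ⟨b, hb, hcb⟩ := hc
  exact ⟨r • b, fun S hS => sec_smul r (hb S hS), fun S hS => by
    rw [dd_smul, Pi.smul_apply, hcb S hS]⟩

lemma cocyc_mul {W : Submodule O L} {f : ι → L} {m : ℤ} {j n : ℕ} {a : L}
    {c : Finset ι → L} (ha : a ∈ W ^ n) (hc : Cocyc W f m j c) :
    Cocyc W f (n + m) j (fun S => a * c S) :=
  ⟨fun S hS => sec_mul ha (hc.1 S hS), fun S hS => by rw [dd_mul, hc.2 S hS, mul_zero]⟩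

lemma cocyc_pow {W : Submodule O L} {f : ι → L} {m : ℤ} {j : ℕ} {c : Finset ι → L} (p e : ℕ)
    [ExpChar L p] (hc : Cocyc W f m j c) :
    Cocyc W f ((p ^ e : ℕ) * m) j (fun S => c S ^ p ^ e) :=
  ⟨fun S hS => sec_pow (p ^ e) (hc.1 S hS), fun S hS => by
    have h := dd_hom (iterateFrobenius L p e : L →+ L) c S
    simp only [AddMonoidHom.coe_coe, iterateFrobenius_def] at h
    rw [h, hc.2 S hS, zero_pow]
    exact (pow_pos (expChar_pos L p) e).ne'⟩

end coch

theorem lam : S_LAM := by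
  intro K L ι _ _ _ _ _ _ x p D e m M g c ell hp hK hD _ hg hc hell hreg
  have hpe : 0 < p ^ e := pow_pos hp.pos e
  have : CharP L p := charP_of_injective_algebraMap (algebraMap K L).injective p
  have : Fact p.Prime := ⟨hp⟩
  have : ExpChar L p := ExpChar.prime hp
  have : ExpChar K p := ExpChar.prime hp
  have hx : ∀ i, x i ∈ VV K x := fun i => Submodule.subset_span ⟨i, rfl⟩
  set q : ℕ := p ^ e with hq
  set μ : ℤ := (M : ℤ) - (q : ℕ) * m with hμ
  have hFc : ∀ ξ : Finset ι → L, Cocyc (VV K x) x (-(m : ℤ)) D ξ →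
      Cocyc (VV K x) x μ D (fun S => c * ξ S ^ q) := by
    intro ξ hξ
    have h := cocyc_mul hc (cocyc_pow p e hξ)
    have h2 : (M : ℤ) + ((p ^ e : ℕ) : ℤ) * (-(m : ℤ)) = μ := by
      rw [hμ, hq]
      ring
    rw [h2] at h
    exact h
  let Γ : Submodule K ((Finset ι → L) × K) :=
    { carrier := {v | ∃ ξ b : Finset ι → L, Cocyc (VV K x) x (-(m : ℤ)) D ξ ∧
        Cocyc (VV K x) x μ D b ∧ Cobd (VV K x) x μ D b ∧
        v.1 = (fun S => c * ξ S ^ q) + b ∧ v.2 = (ell (fun S => g * ξ S)) ^ q}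
      add_mem' := by
        rintro v v' ⟨ξ, b, h1, h2, h3, h4, h5⟩ ⟨ξ', b', h1', h2', h3', h4', h5'⟩
        refine ⟨ξ + ξ', b + b', cocyc_add hx h1 h1', cocyc_add hx h2 h2', cobd_add hx h3 h3',
          ?_, ?_⟩
        · rw [Prod.fst_add, h4, h4']
          funext S
          simp only [Pi.add_apply]
          rw [hq, add_pow_expChar_pow]
          ring
        · rw [Prod.snd_add, h5, h5', hq, ← add_pow_expChar_pow, ← map_add]
          congr 2
          funext S
          simp only [Pi.add_apply]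
          ring
      zero_mem' := by
        refine ⟨0, 0, cocyc_zero _ _ _ (by omega), cocyc_zero _ _ _ (by omega),
          cobd_zero _ _ _ hD, ?_, ?_⟩
        · funext S
          simp [hpe.ne']
        · have : (fun S : Finset ι => g * (0 : Finset ι → L) S) = 0 := by
            funext S
            simp
          rw [this, map_zero, zero_pow hpe.ne']
          rfl
      smul_mem' := by
        rintro r v ⟨ξ, b, h1, h2, h3, h4, h5⟩
        obtain ⟨s, hs⟩ := IsAlgClosed.exists_pow_nat_eq r hpe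
        refine ⟨s • ξ, r • b, cocyc_smul s h1, cocyc_smul r h2, cobd_smul r h3, ?_, ?_⟩
        · rw [Prod.smul_fst, h4]
          funext S
          simp only [Pi.add_apply, Pi.smul_apply, smul_add]
          rw [← hs, smul_pow]
          congr 1
          rw [mul_smul_comm]
        · rw [Prod.smul_snd, h5, ← hs, smul_eq_mul, ← mul_pow, ← smul_eq_mul s, ← map_smul]
          congr 2
          funext S
          simp only [Pi.smul_apply]
          rw [mul_smul_comm] }
  have hΓ : ∀ v ∈ Γ, v.1 = 0 → v.2 = 0 := by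
    rintro v ⟨ξ, b, h1, h2, h3, h4, h5⟩ h0
    rw [h5]
    have hF : (fun S => c * ξ S ^ q) = (-1 : K) • b := by
      rw [h0] at h4
      have := eq_neg_of_add_eq_zero_left h4.symm
      rw [this]
      simp
    have h6 : Cobd (VV K x) x μ D (fun S => c * ξ S ^ q) := by
      rw [hF]
      exact cobd_smul _ h3
    have h7 := hreg ξ h1 h6
    have h8 : Cocyc (VV K x) x 0 D (fun S => g * ξ S) := by
      have h := cocyc_mul hg h1
      have h9 : (m : ℤ) + (-(m : ℤ)) = 0 := by ring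
      rw [h9] at h
      exact h
    rw [hell _ h8 h7, zero_pow hpe.ne']
  obtain ⟨lam, hlam⟩ := LinearMap.exists_extend (Γ.toLinearPMap).toFun
  have key : ∀ v ∈ Γ, lam v.1 = v.2 := by
    intro v hv
    have hgr : v ∈ (Γ.toLinearPMap).graph := by
      rw [Submodule.toLinearPMap_graph_eq Γ hΓ]
      exact hv
    rw [LinearPMap.mem_graph_iff] at hgr
    obtain ⟨y, hy1, hy2⟩ := hgr
    rw [← hy1, ← hy2]
    have := LinearMap.congr_fun hlam y
    exact this
  refine ⟨lam, ?_, ?_⟩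
  · intro a ha ha'
    refine key (a, 0) ⟨0, a, cocyc_zero _ _ _ (by omega), ha, ha', ?_, ?_⟩
    · funext S
      simp [hpe.ne']
    · have : (fun S : Finset ι => g * (0 : Finset ι → L) S) = 0 := by
        funext S
        simp
      rw [this, map_zero, zero_pow hpe.ne']
  · intro ξ hξ
    refine (key (fun S => c * ξ S ^ q, (ell (fun S => g * ξ S)) ^ q)
      ⟨ξ, 0, hξ, cocyc_zero _ _ _ (by omega), cobd_zero _ _ _ hD, ?_, rfl⟩).symm
    rw [add_zero]

end Pool.Agent.Y811.GS
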